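import Pool.Agent.R414.EB.Low

/-!
# Polynomials with at least `k` preperiodic points
-/

set_option autoImplicit false

open Finset Height NumberField Polynomial
open Pool.Agent.W276.GE (S_root S_pts)
open Pool.Agent.R414.EA (shells)
open Pool.Agent.R414.EB

noncomputable section

namespace Pool.Agent.R414.EC

/-- the coefficients of a polynomial `(c_0 + ... + c_d z^d) / b` -/
abbrev PV (d : ℕ) : Type := ℤ × (Fin (d + 1) → ℤ)

/-- the polynomial map -/
def pol (K : Type) [Field K] {d : ℕ} (v : PV d) (z : K) : K :=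
  (∑ i, (v.2 i : K) * z ^ (i : ℕ)) / v.1

/-- the corresponding vector with `e = 0` -/
def toVec {d : ℕ} (v : PV d) : Vec d := (v.1, 0, v.2)

theorem toVec_inj {d : ℕ} : Function.Injective (toVec : PV d → Vec d) := by
  rintro ⟨b, c⟩ ⟨b', c'⟩ h
  simp only [toVec, Prod.mk.injEq, true_and] at h
  exact Prod.ext h.1 h.2

/-- the conditions for a polynomial of degree `d` -/
def IsPol {d : ℕ} (v : PV d) : Prop := v.1 ≠ 0 ∧ v.2 (Fin.last d) ≠ 0

/-- `k` different preperiodic points over some number field of degree at most `D` -/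
def PreK {d : ℕ} (D k : ℕ) (v : PV d) : Prop :=
  ∃ (K : Type) (_ : Field K) (_ : NumberField K), Module.finrank ℚ K ≤ D ∧
    ∃ z : Fin k → K, Function.Injective z ∧
      ∀ i, ∃ m n : ℕ, m < n ∧ (pol K v)^[n] (z i) = (pol K v)^[m] (z i)

theorem exists_closed {K : Type} [Field K] {d k : ℕ} (v : PV d) (z : Fin k → K)
    (hz : Function.Injective z)
    (hper : ∀ i, ∃ m n : ℕ, m < n ∧ (pol K v)^[n] (z i) = (pol K v)^[m] (z i)) :
    ∃ S : Finset K, k ≤ S.card ∧ ∀ s ∈ S, pol K v s ∈ S := by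
  classical
  choose m n hmn hnz using hper
  let S : Finset K := Finset.univ.biUnion fun i : Fin k =>
    (Finset.range (n i)).image fun t => (pol K v)^[t] (z i)
  have hS : ∀ s, s ∈ S ↔ ∃ i, ∃ t < n i, (pol K v)^[t] (z i) = s := by
    intro s
    simp [S]
  refine ⟨S, ?_, ?_⟩
  · have h1 : Finset.univ.image z ⊆ S := by
      intro s hs
      obtain ⟨i, -, rfl⟩ := Finset.mem_image.mp hs
      rw [hS]
      exact ⟨i, 0, by have := hmn i; omega, rfl⟩
    have h2 := Finset.card_le_card h1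
    rwa [Finset.card_image_of_injective _ hz, Finset.card_univ, Fintype.card_fin] at h2
  · intro s hs
    rw [hS] at hs ⊢
    obtain ⟨i, t, ht, rfl⟩ := hs
    rcases Nat.lt_or_ge (t + 1) (n i) with h | h
    · exact ⟨i, t + 1, h, Function.iterate_succ_apply' _ _ _⟩
    · refine ⟨i, m i, hmn i, ?_⟩
      have h1 : Nat.succ t = n i := by omega
      rw [← Function.iterate_succ_apply' (pol K v), h1, hnz]

theorem PreK.case {d D k H : ℕ} (hd : 2 ≤ d) (hH : 1 ≤ H) (hk : 1 ≤ k) {v : PV d}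
    (hv : toVec v ∈ vbox d H) (hpol : IsPol v) (h : PreK D k v) :
    ∃ κ, Case D k κ True H (toVec v) := by
  classical
  obtain ⟨K, i1, i2, hK, z, hz, hper⟩ := h
  obtain ⟨S, hSk, hS⟩ := exists_closed v z hz hper
  obtain ⟨hb, he, hg⟩ := mem_vbox.mp hv
  have hbK : (v.1 : K) ≠ 0 := by exact_mod_cast hpol.1
  have hrecS : ∀ s : K, Rec (toVec v) s (pol K v s) s := by
    intro s
    unfold Rec pol toVec
    simp only [Int.cast_zero, zero_mul, add_zero]
    field_simp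
  have hrec : ∀ s ∈ S, ∃ q ∈ S, ∃ p ∈ S, ∑ i, ((toVec v).2.2 i : K) * s ^ (i : ℕ) =
      ((toVec v).1 : K) * q + ((toVec v).2.1 : K) * p := fun s hs =>
    ⟨pol K v s, hS s hs, s, hs, hrecS s⟩
  have hap : ∀ s ∈ S, mulHeight₁ s ≤ ((d + 2) * H : ℝ) ^ D := by
    intro s hs
    refine (apriori hd _ _ _ hb he hg S hrec hpol.2 hs).trans ?_
    refine pow_le_pow_right₀ ?_ hK
    have h1 : (1 : ℝ) ≤ H := by exact_mod_cast hH
    have h2 : (0 : ℝ) ≤ d := Nat.cast_nonneg _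
    nlinarith
  obtain ⟨x, hx, hxS, i₀, hmax⟩ := exists_tuple S hk hSk
  obtain ⟨κ, h2, h3⟩ := exists_nat_pow_near (one_le_mulHeight₁ (x i₀))
    (by norm_num : (1 : ℝ) < 2)
  refine ⟨κ, K, i1, i2, hK, x, fun i => pol K v (x i), x, hx, fun i => hrecS (x i), i₀,
    fun i => ⟨hmax _ (hxS i), hmax _ (hS _ (hxS i)), hmax _ (hxS i)⟩, h2, h3.le, hap _ (hxS i₀),
    ![1, 0, 0, 0], ?_, fun _ => ⟨?_, ?_⟩⟩
  · intro j
    fin_cases j <;> simp [one_le_mulHeight₁]
  · simp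
  · simp [toVec]

theorem pre_upper (D k : ℕ) (hD : 1 ≤ D) (hk : 1 ≤ k) :
    ∃ d₀ : ℕ, ∀ d, d₀ ≤ d → (2 ≤ d ∧ k ≤ d) ∧ ∃ C : ℝ, 0 < C ∧ ∀ H : ℕ, 1 ≤ H →
      (({v | toVec v ∈ vbox d H ∧ IsPol v ∧ PreK D k v} : Set (PV d)).ncard : ℝ) ≤
        C * (H : ℝ) ^ (d + 2 - k) := by
  classical
  obtain ⟨c, C₂, hc⟩ := Pool.Agent.W32.GE.pts D
  refine ⟨k + 2 + 2 * D * (c * (3 * k + 4) + 1), fun d hd => ?_⟩
  have hd2 : 2 ≤ d := by omega
  have hkd : k ≤ d := by omega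
  refine ⟨⟨hd2, hkd⟩, ?_⟩
  obtain ⟨CB, hCB, hB⟩ := case_count Pool.Agent.W347.GE.root (D := D) (m := k) (d := d) (c := c) hD
    (by omega) (C₂ := C₂) True
  refine ⟨2 * CB + 1, by positivity, fun H hH => ?_⟩
  have hfin : ∀ Q : Vec d → Prop, ({v | v ∈ vbox d H ∧ Q v} : Set (Vec d)).Finite := fun Q =>
    (Finset.finite_toSet (vbox d H)).subset fun v h => h.1
  have gB := shells (W := {v : Vec d | v ∈ vbox d H ∧ ∃ κ, Case D k κ True H v})
    (hfin _) (fun κ => {v | v ∈ vbox d H ∧ Case D k κ True H v}) (fun κ => hfin _)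
    (by
      rintro v ⟨hv, κ, hκ⟩
      exact ⟨κ, hv, hκ⟩)
    (X := CB * (H : ℝ) ^ (1 + (d + 1 - k))) (by positivity) (by
      intro κ
      obtain ⟨A, hA1, hA2⟩ := hc (2 ^ (κ + 1)) (one_le_pow₀ (by norm_num))
      have := hB H hH κ A hA1 (fun K _ _ hK x hx φ => hA2 K hK x hx φ)
      simpa using this)
  have h1 : ({v | toVec v ∈ vbox d H ∧ IsPol v ∧ PreK D k v} : Set (PV d)).ncard ≤
      ({v : Vec d | v ∈ vbox d H ∧ ∃ κ, Case D k κ True H v}).ncard := by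
    refine Set.ncard_le_ncard_of_injOn toVec ?_ ?_ (hfin _)
    · rintro v ⟨hv, hpol, hper⟩
      exact ⟨hv, hper.case hd2 hH hk hv hpol⟩
    · intro v _ v' _ h
      exact toVec_inj h
  have h2 : (({v | toVec v ∈ vbox d H ∧ IsPol v ∧ PreK D k v} : Set (PV d)).ncard : ℝ) ≤
      2 * (CB * (H : ℝ) ^ (1 + (d + 1 - k))) := le_trans (by exact_mod_cast h1) gB
  have e1 : 1 + (d + 1 - k) = d + 2 - k := by omega
  rw [e1] at h2
  have e3 : (0 : ℝ) ≤ (H : ℝ) ^ (d + 2 - k) := by positivity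
  nlinarith

/-- `k` different preperiodic points of degree at most `D` -/
def PreC {d : ℕ} (D k : ℕ) (v : PV d) : Prop :=
  ∃ z : Fin k → ℂ, Function.Injective z ∧
    ∀ i, (∃ K : IntermediateField ℚ ℂ, FiniteDimensional ℚ K ∧ Module.finrank ℚ K ≤ D ∧ z i ∈ K) ∧
      ∃ m n : ℕ, m < n ∧ (pol ℂ v)^[n] (z i) = (pol ℂ v)^[m] (z i)

theorem PreC.preK {d D k : ℕ} {v : PV d} (h : PreC D k v) : PreK (D ^ k) k v := by
  classical
  obtain ⟨z, hz, hx⟩ := h
  choose K hK using fun i => (hx i).1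
  obtain ⟨L, hL, hL2, hL3⟩ := Pool.Agent.R414.EA.exists_compositum D k K
    fun i => ⟨(hK i).1, (hK i).2.1⟩
  let y : Fin k → L := fun i => ⟨z i, hL3 i (hK i).2.2⟩
  let φ : L →+* ℂ := algebraMap L ℂ
  have hit : ∀ (n : ℕ) (w : L), φ ((pol L v)^[n] w) = (pol ℂ v)^[n] (φ w) := by
    intro n
    induction n with
    | zero => exact fun w => rfl
    | succ n ih =>
      intro w
      rw [Function.iterate_succ_apply, Function.iterate_succ_apply, ih]
      congr 1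
      unfold pol
      rw [map_div₀, map_sum, map_intCast]
      simp
  have this : NumberField L := { to_charZero := inferInstance, to_finiteDimensional := hL }
  refine ⟨L, inferInstance, this, hL2, y, ?_, ?_⟩
  · intro i j hij
    apply hz
    have h1 := congrArg φ hij
    exact h1
  · intro i
    obtain ⟨m, n, hmn, hnz⟩ := (hx i).2
    refine ⟨m, n, hmn, ?_⟩
    apply φ.injective
    rw [hit, hit]
    exact hnz

theorem low {d k T H : ℕ} (hk1 : 1 ≤ k) (hk : k ≤ d) (hd : 2 ≤ d) (hT : (w₁ d k + 1) * T ≤ H) :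
    T ^ (d + 2 - k) ≤ ({v | toVec v ∈ vbox d H ∧ (IsPol v ∧ PreC 1 k v)} : Set (PV d)).ncard := by
  classical
  let Dm : Finset (ℤ × (Fin (d - k + 1) → ℤ)) := Finset.Icc 1 (T : ℤ) ×ˢ pbox (d - k) T
  have hcard : Dm.card = T ^ (d + 2 - k) := by
    simp only [Dm, Finset.card_product, Int.card_Icc, card_pbox]
    have h1 : ((T : ℤ) + 1 - 1).toNat = T := by omega
    rw [h1, ← pow_succ']
    congr 1
    omega
  have hfin : ({v | toVec v ∈ vbox d H ∧ (IsPol v ∧ PreC 1 k v)} : Set (PV d)).Finite :=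
    Set.Finite.of_finite_image ((Finset.finite_toSet (vbox d H)).subset (by
      rintro _ ⟨v, hv, rfl⟩
      exact hv.1)) (toVec_inj.injOn)
  rw [← hcard, ← Set.ncard_coe_finset]
  refine Set.ncard_le_ncard_of_injOn
    (fun z => (z.1, fun i : Fin (d + 1) => (Gp k 0 0 z.2).coeff i)) ?_ ?_ hfin
  · rintro ⟨b, Q⟩ hz
    simp only [Dm, Finset.coe_product, Set.mem_prod, Finset.mem_coe, Finset.mem_Icc, mem_pbox] at hz
    obtain ⟨⟨hb1, hb2⟩, hQ⟩ := hz
    have hTH : (T : ℤ) ≤ H := by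
      have : T ≤ H := le_trans (Nat.le_mul_of_pos_left _ (by omega)) hT
      exact_mod_cast this
    have hH0 : (0 : ℤ) ≤ H := by positivity
    have hval : ∀ j : ℕ, j < k →
        pol ℂ ((b, fun i : Fin (d + 1) => (Gp k 0 0 Q).coeff i) : PV d) (j : ℂ) = 0 := by
      intro j hj
      unfold pol
      simp only
      rw [Gp_sum hk (by omega) 0 0 Q hj]
      simp
    refine ⟨?_, ⟨?_, ?_⟩, ?_⟩
    · rw [mem_vbox]
      refine ⟨abs_le.mpr ⟨by show -(H : ℤ) ≤ b; linarith, by show b ≤ (H : ℤ); linarith⟩, ?_,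
        fun i => ?_⟩
      · show |(0 : ℤ)| ≤ H
        simp
      have h1 := Gp_bound 0 0 Q (T := T) (fun j => abs_le.mpr
        ⟨by linarith [(hQ j).1, (hQ j).2], (hQ j).2⟩) i
      have h3 : (((w₁ d k + 1) * T : ℕ) : ℤ) ≤ H := by exact_mod_cast hT
      push_cast at h1 h3
      simp only [abs_zero, zero_add] at h1
      refine h1.trans ?_
      have h4 : (0 : ℤ) ≤ T := by positivity
      linarith
    · show b ≠ 0
      omega
    · show (Gp k 0 0 Q).coeff ((Fin.last d : Fin (d + 1)) : ℕ) ≠ 0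
      rw [Fin.val_last, Gp_lead hk hd]
      have := (hQ (Fin.last _)).1
      omega
    · refine ⟨fun i => ((i : ℕ) : ℂ), ?_, fun i => ⟨⟨⊥, inferInstance, ?_, nat_mem _⟩,
        1, 2, by norm_num, ?_⟩⟩
      · intro i j hij
        simp only [Nat.cast_inj] at hij
        exact Fin.ext hij
      · rw [IntermediateField.finrank_bot]
      · simp only [Function.iterate_succ, Function.iterate_zero, Function.comp, id]
        rw [hval i i.2]
        have := hval 0 (by omega)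
        rw [Nat.cast_zero] at this
        exact this
  · rintro ⟨b, Q⟩ _ ⟨b', Q'⟩ _ h
    simp only [Prod.mk.injEq] at h
    obtain ⟨rfl, h3⟩ := h
    have := Gp_inj hk (by omega) 0 0 (fun i => congrFun h3 i)
    rw [this]

theorem final (D k : ℕ) (hD : 1 ≤ D) (hk : 1 ≤ k) : ∃ d₀ : ℕ, ∀ d, d₀ ≤ d →
    ∃ (c C : ℝ) (H₀ : ℕ), 0 < c ∧ 0 < C ∧
      (∀ H : ℕ, 1 ≤ H →
        (({v | toVec v ∈ vbox d H ∧ (IsPol v ∧ PreC D k v)} : Set (PV d)).ncard : ℝ) ≤
        C * (H : ℝ) ^ (d + 2 - k)) ∧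
      (∀ H : ℕ, H₀ ≤ H → c * (H : ℝ) ^ (d + 2 - k) ≤
        (({v | toVec v ∈ vbox d H ∧ (IsPol v ∧ PreC 1 k v)} : Set (PV d)).ncard : ℝ)) := by
  classical
  obtain ⟨d₀, hd₀⟩ := pre_upper (D ^ k) k (Nat.one_le_pow _ _ hD) hk
  refine ⟨d₀, fun d hd => ?_⟩
  obtain ⟨⟨hd2, hkd⟩, C, hC, h⟩ := hd₀ d hd
  set c₀ := w₁ d k + 1 with hc₀
  refine ⟨(1 / (2 * c₀ : ℝ)) ^ (d + 2 - k), C, c₀, by positivity, hC, fun H hH => ?_,
    fun H hH => ?_⟩
  · refine le_trans ?_ (h H hH)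
    have hfin : ({v | toVec v ∈ vbox d H ∧ IsPol v ∧ PreK (D ^ k) k v} : Set (PV d)).Finite :=
      Set.Finite.of_finite_image ((Finset.finite_toSet (vbox d H)).subset (by
        rintro _ ⟨v, hv, rfl⟩
        exact hv.1)) (toVec_inj.injOn)
    have h2 : ({v | toVec v ∈ vbox d H ∧ (IsPol v ∧ PreC D k v)} : Set (PV d)).ncard ≤
        ({v | toVec v ∈ vbox d H ∧ IsPol v ∧ PreK (D ^ k) k v} : Set (PV d)).ncard := by
      refine Set.ncard_le_ncard ?_ hfin
      rintro v ⟨hv, hpol, hper⟩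
      exact ⟨hv, hpol, hper.preK⟩
    exact_mod_cast h2
  · set T := H / c₀ with hT
    have hc0 : 0 < c₀ := by omega
    have hTH : c₀ * T ≤ H := Nat.mul_div_le H c₀
    have hT1 : 1 ≤ T := (Nat.one_le_div_iff hc0).mpr hH
    have hHT : H < c₀ * (T + 1) := by
      have := Nat.lt_mul_div_succ H hc0
      rwa [← hT] at this
    have hc0R : (0 : ℝ) < c₀ := by exact_mod_cast hc0
    have hT2 : (1 / (2 * c₀ : ℝ)) * H ≤ T := by
      rw [one_div, inv_mul_le_iff₀ (by positivity)]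
      have h1 : (H : ℝ) ≤ c₀ * (T + 1) := by exact_mod_cast hHT.le
      have h2 : (1 : ℝ) ≤ T := by exact_mod_cast hT1
      nlinarith
    rw [← mul_pow]
    calc ((1 / (2 * c₀ : ℝ)) * H) ^ (d + 2 - k) ≤ (T : ℝ) ^ (d + 2 - k) :=
          pow_le_pow_left₀ (by positivity) hT2 _
      _ ≤ _ := by exact_mod_cast low hk hkd hd2 hTH

end Pool.Agent.R414.EC
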